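import Mathlib
import Pool.Agent.Helper35.HSF.StD

set_option autoImplicit false

namespace Helper73.HSF

open Helper35.HSF Helper35.MS Helper35.PI Helper35.PI2 Helper32.CL
open scoped ContDiff Manifold Topology ENNReal BigOperators
open MeasureTheory Set Filter

private theorem huk_alg {s r a Y τ : ℝ} (hτ : 0 < τ) (hr : r ≤ s) (hY : 0 ≤ Y)
    (h : a ^ 2 ≤ Y * (s - r)) : 0 ≤ (s - r) / (4 * τ ^ 2) + a / τ + Y := by
  have h1 : 0 ≤ (s - r) + 4 * τ * a + 4 * τ ^ 2 * Y := by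
    have hp : 0 ≤ s - r := by linarith
    have hm : 0 ≤ 4 * τ ^ 2 * Y := by positivity
    have h2 : (4 * τ * a) ^ 2 ≤ ((s - r) + 4 * τ ^ 2 * Y) ^ 2 := by
      have h3 : (4 * τ * a) ^ 2 ≤ 16 * τ ^ 2 * (Y * (s - r)) := by
        have : (4 * τ * a) ^ 2 = 16 * τ ^ 2 * a ^ 2 := by ring
        rw [this]
        exact mul_le_mul_of_nonneg_left h (by positivity)
      nlinarith [sq_nonneg ((s - r) - 4 * τ ^ 2 * Y)]
    have h4 := abs_le_of_sq_le_sq' h2 (by linarith)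
    linarith [h4.1]
  have h2 : (s - r) / (4 * τ ^ 2) + a / τ + Y
      = ((s - r) + 4 * τ * a + 4 * τ ^ 2 * Y) / (4 * τ ^ 2) := by
    field_simp
  rw [h2]
  positivity

private theorem huk_zeta (n : ℕ) (τ : ℝ) :
    ContDiff ℝ 1 (fun s : ℝ => (4 * Real.pi * τ) ^ (-(n : ℝ) / 2) * Real.exp (-(s / (4 * τ)))) ∧
    ∀ s : ℝ, deriv (fun s : ℝ => (4 * Real.pi * τ) ^ (-(n : ℝ) / 2)
        * Real.exp (-(s / (4 * τ)))) s
      = -((4 * Real.pi * τ) ^ (-(n : ℝ) / 2) * Real.exp (-(s / (4 * τ)))) / (4 * τ) := by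
  constructor
  · exact contDiff_const.mul ((contDiff_id.div_const _).neg.exp)
  · intro s
    have h1 : HasDerivAt (fun s : ℝ => -(s / (4 * τ))) (-(1 / (4 * τ))) s :=
      ((hasDerivAt_id s).div_const (4 * τ)).neg
    have h2 := (h1.exp).const_mul ((4 * Real.pi * τ) ^ (-(n : ℝ) / 2))
    rw [h2.deriv]
    ring

private theorem huk_deriv {N : ℕ} (n : ℕ) {f : ℝ → EE N} {y H : EE N} {ts t : ℝ} (ht : t < ts)
    (hf : HasDerivAt f H t) :
    HasDerivAt (fun t => (4 * Real.pi * (ts - t)) ^ (-(n : ℝ) / 2)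
        * Real.exp (-(‖f t - y‖ ^ 2 / (4 * (ts - t)))))
      ((4 * Real.pi * (ts - t)) ^ (-(n : ℝ) / 2) * Real.exp (-(‖f t - y‖ ^ 2 / (4 * (ts - t)))) *
        (n / (2 * (ts - t)) - ‖f t - y‖ ^ 2 / (4 * (ts - t) ^ 2)
          - inner ℝ H (f t - y) / (2 * (ts - t)))) t := by
  have hτ : 0 < ts - t := by linarith
  have hτ' : ts - t ≠ 0 := hτ.ne'
  have h0 : HasDerivAt (fun t : ℝ => ts - t) (-1) t := by
    simpa using (hasDerivAt_id t).const_sub ts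
  have h1 : HasDerivAt (fun t : ℝ => 4 * Real.pi * (ts - t)) (4 * Real.pi * (-1)) t :=
    h0.const_mul (4 * Real.pi)
  have hpi : 0 < (4 * Real.pi * (ts - t)) := by
    have := Real.pi_pos
    positivity
  have h2 : HasDerivAt (fun t : ℝ => (4 * Real.pi * (ts - t)) ^ (-(n : ℝ) / 2))
      ((4 * Real.pi * (ts - t)) ^ (-(n : ℝ) / 2) * (n / (2 * (ts - t)))) t := by
    refine (h1.rpow_const (p := -(n : ℝ) / 2) (Or.inl hpi.ne')).congr_deriv ?_
    rw [Real.rpow_sub_one hpi.ne']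
    have hp : Real.pi ≠ 0 := Real.pi_ne_zero
    field_simp
  have h3 : HasDerivAt (fun t => ‖f t - y‖ ^ 2) (2 * inner ℝ (f t - y) H) t := by
    have := (hf.sub_const y).norm_sq
    exact this
  have h4 : HasDerivAt (fun t : ℝ => 4 * (ts - t)) (4 * (-1)) t := h0.const_mul 4
  have h5 := (h3.div h4 (by positivity : (4 * (ts - t)) ≠ 0)).neg
  have h6 := h2.mul h5.exp
  refine h6.congr_deriv ?_
  show (4 * Real.pi * (ts - t)) ^ (-(n : ℝ) / 2) * (n / (2 * (ts - t))) *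
        Real.exp (-(‖f t - y‖ ^ 2 / (4 * (ts - t)))) +
      (4 * Real.pi * (ts - t)) ^ (-(n : ℝ) / 2) *
        (Real.exp (-(‖f t - y‖ ^ 2 / (4 * (ts - t)))) *
          -((2 * inner ℝ (f t - y) H * (4 * (ts - t)) - ‖f t - y‖ ^ 2 * (4 * (-1)))
            / (4 * (ts - t)) ^ 2)) = _
  rw [real_inner_comm H (f t - y)]
  generalize (4 * Real.pi * (ts - t)) ^ (-(n : ℝ) / 2) = P
  generalize Real.exp (-(‖f t - y‖ ^ 2 / (4 * (ts - t)))) = Q
  field_simp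
  ring

theorem hHUN (hPRJ : StPRJ) (hFVJ : StFVJ) (hTDJ : StTDJ) (hMUJ : StMUJ) (hI4J : StI4J)
    (hSMR : StSMR) : StHUN := by
  intro n N M _ _ _ _ _ _ _ J F c χ hS u y ts hu0 Φ hΦ t₀ ht₀ hts hpos
  obtain ⟨hsmu, hc0u, hc1u, hhdu, -, -, -, hTSu⟩ := hSMR n N M J F hS.mcf.toIsImmJ u hu0
  have hle : (1 : WithTop ℕ∞) ≤ ((⊤ : ℕ∞) : WithTop ℕ∞) := by exact_mod_cast le_top
  -- restriction to `J ∩ Iio ts`
  set J' : Set ℝ := J ∩ Iio ts with hJ'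
  have hop : IsOpen J := hS.mcf.toIsImmJ.op
  have hsub : J' ⊆ J := inter_subset_left
  have hS' : SetupF n J' F c χ := by
    refine ⟨⟨⟨hop.inter isOpen_Iio, hS.mcf.toIsImmJ.smooth.mono (prod_mono subset_rfl hsub),
      fun p t ht => hS.mcf.toIsImmJ.imm p t (hsub ht)⟩,
      fun p t ht => hS.mcf.flow p t (hsub ht)⟩, hS.pu⟩
  have ht₀' : t₀ ∈ J' := ⟨ht₀, hts⟩
  have hmemu : ∀ {z : M × ℝ}, z ∈ (univ : Set M) ×ˢ J' → z.2 < ts := fun hz => hz.2.2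
  obtain ⟨hcF, hcH, -, -⟩ := hI4J n N M J F hS.mcf.toIsImmJ
  have mono : ∀ {V : Type} [TopologicalSpace V] {g : M → ℝ → V}, CSTJ J g → CSTJ J' g :=
    fun hg => hg.mono (prod_mono subset_rfl hsub)
  have hcF' : CSTJ J' F := mono hcF
  have hcH' : CSTJ J' (HH (n := n) F) := mono hcH
  have hcu : CSTJ J' u := mono hc0u
  have hcu' : CSTJ J' (fun q t => deriv (fun s => u q s) t) := mono hc1u
  -- continuity of the kernel
  have hcτ : ContinuousOn (fun z : M × ℝ => ts - z.2) ((univ : Set M) ×ˢ J') :=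
    (continuous_const.sub continuous_snd).continuousOn
  have hcx : ContinuousOn (fun z : M × ℝ => F z.1 z.2 - y) ((univ : Set M) ×ˢ J') :=
    ContinuousOn.sub hcF' continuousOn_const
  have hτne : ∀ z ∈ (univ : Set M) ×ˢ J', ts - z.2 ≠ 0 := fun z hz => by
    have := hmemu hz
    exact (sub_pos.2 this).ne'
  have hcΦ : CSTJ J' Φ := by
    rw [hΦ]
    refine ContinuousOn.mul (ContinuousOn.rpow_const (continuousOn_const.mul hcτ) ?_) ?_
    · intro z hz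
      have := hτne z hz
      have hp := Real.pi_ne_zero
      exact Or.inl (by positivity)
    · refine Real.continuous_exp.comp_continuousOn (ContinuousOn.neg ?_)
      refine ContinuousOn.div ((hcx.norm).pow 2) (continuousOn_const.mul hcτ) ?_
      intro z hz
      have := hτne z hz
      positivity
  -- the time derivative of the kernel
  set Φ' : M → ℝ → ℝ := fun q t => Φ q t * (n / (2 * (ts - t)) - ‖F q t - y‖ ^ 2 / (4 * (ts - t) ^ 2)
          - inner ℝ (HH (n := n) F q t) (F q t - y) / (2 * (ts - t))) with hΦ'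
  have hcΦ' : CSTJ J' Φ' := by
    refine ContinuousOn.mul hcΦ (ContinuousOn.sub (ContinuousOn.sub ?_ ?_) ?_)
    · refine ContinuousOn.div continuousOn_const (continuousOn_const.mul hcτ) ?_
      intro z hz
      have := hτne z hz
      positivity
    · refine ContinuousOn.div ((hcx.norm).pow 2) (continuousOn_const.mul (hcτ.pow 2)) ?_
      intro z hz
      have := hτne z hz
      positivity
    · refine ContinuousOn.div (ContinuousOn.inner (𝕜 := ℝ) hcH' hcx) (continuousOn_const.mul hcτ) ?_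
      intro z hz
      have := hτne z hz
      positivity
  have hdΦ : ∀ q, ∀ t ∈ J', HasDerivAt (Φ q) (Φ' q t) t := by
    intro q t ht
    have := huk_deriv n (y := y) ht.2 (hS.mcf.flow q t (hsub ht))
    rw [hΦ', hΦ]
    exact this
  -- the time derivative of the integral
  set g : M → ℝ → ℝ := fun q t => u q t * Φ q t with hg
  set g' : M → ℝ → ℝ := fun q t => deriv (fun s => u q s) t * Φ q t + u q t * Φ' q t with hg'
  have hcg : CSTJ J' g := ContinuousOn.mul hcu hcΦ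
  have hcg' : CSTJ J' g' := ContinuousOn.add (ContinuousOn.mul hcu' hcΦ)
    (ContinuousOn.mul hcu hcΦ')
  have hdg : ∀ q, ∀ t ∈ J', HasDerivAt (g q) (g' q t) t := by
    intro q t ht
    exact (hhdu q t (hsub ht)).mul (hdΦ q t ht)
  have hD := (hTDJ n N M J' F c χ hS').2 g g' hcg hcg' hdg t₀ ht₀'
  refine ⟨_, hD, ?_⟩
  -- fixed time
  have hτ : 0 < ts - t₀ := by linarith
  set τ : ℝ := ts - t₀ with hτd
  obtain ⟨s, -, hMU⟩ := hMUJ n N M J F c χ hS.toJ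
  obtain ⟨-, -, hint⟩ := hMU t₀ ht₀
  have hslice : ∀ {V : Type} [TopologicalSpace V] {g : M → ℝ → V}, CSTJ J' g →
      Continuous (fun q => g q t₀) := by
    intro V _ g hg
    have h1 : Continuous (fun q : M => (q, t₀)) := by fun_prop
    exact hg.comp_continuous h1 (fun q => ⟨mem_univ _, ht₀'⟩)
  obtain ⟨hprod, htan, -, -, hy⟩ := hPRJ n N M J F hS.mcf.toIsImmJ t₀ ht₀
  obtain ⟨r, hr, -, hζ⟩ := hy y
  obtain ⟨hζc, hζd⟩ := huk_zeta n τ
  set ζ : ℝ → ℝ := fun s : ℝ => (4 * Real.pi * τ) ^ (-(n : ℝ) / 2) * Real.exp (-(s / (4 * τ))) with hζdef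
  have hζd' : ∀ s : ℝ, deriv ζ s = -(ζ s) / (4 * τ) := hζd
  obtain ⟨hZ, hZ1, hZ2, hZ3⟩ := hζ ζ hζc
  have hΦζ : ∀ q, Φ q t₀ = ζ (‖F q t₀ - y‖ ^ 2) := by
    intro q
    rw [hΦ, hζdef, hτd]
  have hV := (hsmu t₀ ht₀).2.of_le hle
  set V : M → EE N := gdM n F t₀ (fun q => u q t₀) with hVd
  -- the two fields
  have hX1 : ContMDiff (𝓡 n) 𝓘(ℝ, EE N) 1 (fun q => ζ (‖F q t₀ - y‖ ^ 2) • V q) :=
    hZ1.smul hV
  have hX2 : ContMDiff (𝓡 n) 𝓘(ℝ, EE N) 1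
      (fun q => u q t₀ • (ζ (‖F q t₀ - y‖ ^ 2) • (F q t₀ - y))) :=
    ((hsmu t₀ ht₀).1.of_le hle).smul hZ
  obtain ⟨hc1, hi1⟩ := hFVJ n N M J F c χ hS.toJ t₀ ht₀ _ hX1
  obtain ⟨hc2, hi2⟩ := hFVJ n N M J F c χ hS.toJ t₀ ht₀ _ hX2
  obtain ⟨hc3, -⟩ := hFVJ n N M J F c χ hS.toJ t₀ ht₀ _ hV
  have hcHt : Continuous (fun q => HH (n := n) F q t₀) := hslice hcH'
  set B1 : M → ℝ := fun q => dvg (n := n) F (fun q => ζ (‖F q t₀ - y‖ ^ 2) • V q) q t₀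
    + inner ℝ (HH (n := n) F q t₀) (ζ (‖F q t₀ - y‖ ^ 2) • V q) with hB1
  set B2 : M → ℝ := fun q => dvg (n := n) F
      (fun q => u q t₀ • (ζ (‖F q t₀ - y‖ ^ 2) • (F q t₀ - y))) q t₀
    + inner ℝ (HH (n := n) F q t₀) (u q t₀ • (ζ (‖F q t₀ - y‖ ^ 2) • (F q t₀ - y))) with hB2
  have hcB1 : Continuous B1 := hc1.add (hcHt.inner hX1.continuous)
  have hcB2 : Continuous B2 := hc2.add (hcHt.inner hX2.continuous)
  have hiB1 := (hint B1 hcB1).1
  have hiB2 := (hint B2 hcB2).1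
  have hcA : Continuous (fun q => g' q t₀ - ‖HH (n := n) F q t₀‖ ^ 2 * g q t₀) :=
    (hslice hcg').sub ((hcHt.norm.pow 2).mul (hslice hcg))
  have hiA := (hint _ hcA).1
  have hcR : Continuous (fun q => htN n F u q t₀ * Φ q t₀) :=
    ((hslice hcu').sub hc3).mul (hslice hcΦ)
  have hiR := (hint _ hcR).1
  have hB2' : Integrable (fun q => (2 * τ)⁻¹ * B2 q) (muM n F c χ t₀) := hiB2.const_mul _
  have e0 : ∫ q, (((g' q t₀ - ‖HH (n := n) F q t₀‖ ^ 2 * g q t₀) - B1 q) - (2 * τ)⁻¹ * B2 q)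
          ∂muM n F c χ t₀
      = ∫ q, ((g' q t₀ - ‖HH (n := n) F q t₀‖ ^ 2 * g q t₀) - B1 q) ∂muM n F c χ t₀
        - ∫ q, (2 * τ)⁻¹ * B2 q ∂muM n F c χ t₀ := integral_sub (hiA.sub hiB1) hB2'
  have e00 : ∫ q, ((g' q t₀ - ‖HH (n := n) F q t₀‖ ^ 2 * g q t₀) - B1 q) ∂muM n F c χ t₀
      = ∫ q, (g' q t₀ - ‖HH (n := n) F q t₀‖ ^ 2 * g q t₀) ∂muM n F c χ t₀
        - ∫ q, B1 q ∂muM n F c χ t₀ := integral_sub hiA hiB1
  have e000 : ∫ q, B1 q ∂muM n F c χ t₀ = 0 := hi1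
  have e0000 : ∫ q, B2 q ∂muM n F c χ t₀ = 0 := hi2
  have e1 : ∫ q, (g' q t₀ - ‖HH (n := n) F q t₀‖ ^ 2 * g q t₀) ∂muM n F c χ t₀
      = ∫ q, (((g' q t₀ - ‖HH (n := n) F q t₀‖ ^ 2 * g q t₀) - B1 q) - (2 * τ)⁻¹ * B2 q)
          ∂muM n F c χ t₀ := by
    rw [e0, e00, integral_const_mul, e000, e0000]
    ring
  rw [e1]
  refine integral_mono ((hiA.sub hiB1).sub hB2') hiR ?_
  intro q
  show (g' q t₀ - ‖HH (n := n) F q t₀‖ ^ 2 * g q t₀) - B1 q - (2 * τ)⁻¹ * B2 q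
    ≤ htN n F u q t₀ * Φ q t₀
  -- pointwise values
  have hVt : V q ∈ TS (n := n) F q t₀ := htan _ q
  have hog : (inner ℝ (HH (n := n) F q t₀) (V q) : ℝ) = 0 := (hTSu t₀ ht₀ q).2
  have v1 : B1 q = Φ q t₀ * lapN n F u q t₀
      + 2 * (-(Φ q t₀) / (4 * τ)) * inner ℝ (F q t₀ - y) (V q) := by
    show dvg (n := n) F (fun q => ζ (‖F q t₀ - y‖ ^ 2) • V q) q t₀
      + inner ℝ (HH (n := n) F q t₀) (ζ (‖F q t₀ - y‖ ^ 2) • V q) = _
    rw [hprod _ hZ1 V hV q, hZ2 q (V q) hVt, inner_smul_right, hog, hζd', hΦζ q]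
    simp only [lapN]
    ring
  have v2 : B2 q = u q t₀ * (n * Φ q t₀ + 2 * (-(Φ q t₀) / (4 * τ)) * r q)
      + Φ q t₀ * inner ℝ (F q t₀ - y) (V q)
      + u q t₀ * Φ q t₀ * inner ℝ (HH (n := n) F q t₀) (F q t₀ - y) := by
    show dvg (n := n) F
      (fun q => u q t₀ • (ζ (‖F q t₀ - y‖ ^ 2) • (F q t₀ - y))) q t₀
      + inner ℝ (HH (n := n) F q t₀) (u q t₀ • (ζ (‖F q t₀ - y‖ ^ 2) • (F q t₀ - y))) = _
    rw [hprod _ ((hsmu t₀ ht₀).1.of_le hle) _ hZ q, hZ3 q, hζd', hΦζ q, inner_smul_right,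
      inner_smul_right, inner_smul_right, ← hVd, real_inner_comm (F q t₀ - y) (V q)]
    push_cast
    ring
  have hΦ0 : 0 ≤ Φ q t₀ := by
    rw [hΦζ q, hζdef]
    positivity
  obtain ⟨hr0, hr1, hr2⟩ := hr q
  have halg := huk_alg hτ hr1 (sq_nonneg ‖HH (n := n) F q t₀‖) hr2
  have hfin : 0 ≤ u q t₀ * Φ q t₀ *
      ((‖F q t₀ - y‖ ^ 2 - r q) / (4 * τ ^ 2)
        + inner ℝ (HH (n := n) F q t₀) (F q t₀ - y) / τ + ‖HH (n := n) F q t₀‖ ^ 2) :=
    mul_nonneg (mul_nonneg (hpos q) hΦ0) halg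
  rw [v1, v2]
  have hht : htN n F u q t₀ = deriv (fun s => u q s) t₀ - lapN n F u q t₀ := rfl
  rw [hht]
  simp only [hg', hg, hΦ']
  rw [← hτd]
  refine le_of_sub_nonneg ?_
  refine hfin.trans (le_of_eq ?_)
  field_simp
  ring

end Helper73.HSF
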